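import Pool.Agent.W610.HY.Stm

/-!
Project HY (owner helper610), part MEAN: mean values of entire functions on the unit circle.
-/

set_option autoImplicit false

namespace Pool.Agent.W721.HY.MEAN

open MeasureTheory Set Metric Filter Topology
open Pool.Agent.W610.HY

theorem main : Pool.Agent.W610.HY.MEAN := by
  intro F hF
  have hz : ∀ θ : ℝ, circleMap 0 1 θ ≠ 0 := fun θ => circleMap_ne_center one_ne_zero
  constructor
  · have h1 : (∮ z in C(0, 1), (z - 0)⁻¹ • F z) = (2 * Real.pi * Complex.I : ℂ) • F 0 :=
      hF.differentiableOn.circleIntegral_sub_inv_smul (by simp)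
    have h2 : (∮ z in C(0, 1), (z - 0)⁻¹ • F z) =
        Complex.I * ∫ θ in (0:ℝ)..(2 * Real.pi), F (circleMap 0 1 θ) := by
      rw [circleIntegral, ← intervalIntegral.integral_const_mul]
      congr 1
      funext θ
      rw [deriv_circleMap, smul_eq_mul, smul_eq_mul, sub_zero]
      have := hz θ
      field_simp
    rw [h2, smul_eq_mul] at h1
    have h3 : Complex.I * (∫ θ in (0:ℝ)..(2 * Real.pi), F (circleMap 0 1 θ)) =
        Complex.I * (2 * Real.pi * F 0) := by
      rw [h1]; ring
    exact mul_left_cancel₀ Complex.I_ne_zero h3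
  · intro w hw
    have hne : ∀ z ∈ closedBall (0:ℂ) 1, z - w ≠ 0 := by
      intro z hz h
      rw [mem_closedBall_zero_iff] at hz
      have : z = w := sub_eq_zero.1 h
      rw [this] at hz
      linarith
    have h1 : (∮ z in C(0, 1), F z / (z - w)) = 0 := by
      refine Complex.circleIntegral_eq_zero_of_differentiable_on_off_countable zero_le_one
        Set.countable_empty ?_ ?_
      · exact hF.continuous.continuousOn.div (continuousOn_id.sub continuousOn_const) hne
      · intro z hz
        exact (hF z).div (differentiableAt_id.sub_const w) (hne z (ball_subset_closedBall hz.1))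
    have h2 : (∮ z in C(0, 1), F z / (z - w)) = Complex.I * ∫ θ in (0:ℝ)..(2 * Real.pi),
        F (circleMap 0 1 θ) * (circleMap 0 1 θ / (circleMap 0 1 θ - w)) := by
      rw [circleIntegral, ← intervalIntegral.integral_const_mul]
      congr 1
      funext θ
      rw [deriv_circleMap, smul_eq_mul]
      ring
    rw [h2] at h1
    exact (mul_eq_zero.1 h1).resolve_left Complex.I_ne_zero

end Pool.Agent.W721.HY.MEAN
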